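import Pool.Agent.Helper60.HB.Skel

set_option autoImplicit false

/-! # Reduced systems of units of cubic fields -/

open NumberField NumberField.Units NumberField.InfinitePlace Finset

namespace Pool.Agent.Helper55.HB

open Pool.Agent.Helper60.HB

noncomputable section

/-- the logarithmic vector of a unit -/
def latV {K : Type} [Field K] [NumberField K] (u : (𝓞 K)ˣ) : InfinitePlace K → ℝ :=
  fun w => Real.log (w ((u : 𝓞 K) : K))

theorem lat_ne {K : Type} [Field K] [NumberField K] (u : (𝓞 K)ˣ) (w : InfinitePlace K) :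
    w ((u : 𝓞 K) : K) ≠ 0 := (Units.pos_at_place u w).ne'

theorem latV_mul {K : Type} [Field K] [NumberField K] (u v : (𝓞 K)ˣ) :
    latV (u * v) = latV u + latV v := by
  funext w
  simp only [latV, Pi.add_apply]
  rw [← Real.log_mul (lat_ne u w) (lat_ne v w), ← map_mul]
  simp

/-- the logarithmic vector as a homomorphism -/
def latH (K : Type) [Field K] [NumberField K] : Additive (𝓞 K)ˣ →+ (InfinitePlace K → ℝ) where
  toFun := fun u => latV u.toMul
  map_zero' := by
    funext w
    simp [latV]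
  map_add' := fun u v => latV_mul _ _

theorem latV_prod {K : Type} [Field K] [NumberField K] {r : ℕ} (e : Fin r → (𝓞 K)ˣ)
    (k : Fin r → ℤ) : latV (∏ j, e j ^ k j) = ∑ j, (k j : ℝ) • latV (e j) := by
  have h1 : latV (∏ j, e j ^ k j) = latH K (Additive.ofMul (∏ j, e j ^ k j)) := rfl
  rw [h1, ofMul_prod, map_sum]
  refine Finset.sum_congr rfl fun j _ => ?_
  rw [ofMul_zpow, map_zsmul]
  funext w
  simp only [Pi.smul_apply, zsmul_eq_mul, smul_eq_mul]
  rfl

theorem latV_torsion {K : Type} [Field K] [NumberField K] (z : (𝓞 K)ˣ) (hz : z ∈ torsion K) :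
    latV z = 0 := by
  funext w
  simp only [latV, Pi.zero_apply]
  rw [mem_torsion] at hz
  rw [hz w, Real.log_one]

theorem latV_gen {K : Type} [Field K] [NumberField K] (u : (𝓞 K)ˣ) :
    ∃ k : Fin (rank K) → ℤ, latV u = ∑ j, (k j : ℝ) • latV (fundSystem K j) := by
  obtain ⟨⟨z, k⟩, h, -⟩ := exist_unique_eq_mul_prod K u
  refine ⟨k, ?_⟩
  rw [h, latV_mul, latV_torsion _ z.2, zero_add, latV_prod]

/-- multiplication by the multiplicities and restriction -/
def latT (K : Type) [Field K] [NumberField K] :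
    (InfinitePlace K → ℝ) →ₗ[ℝ] dirichletUnitTheorem.logSpace K where
  toFun := fun t w => (w.val.mult : ℝ) * t w.val
  map_add' := fun s t => by
    funext w
    simp [mul_add]
  map_smul' := fun c t => by
    funext w
    simp only [Pi.smul_apply, smul_eq_mul, RingHom.id_apply]
    ring

theorem latT_latV {K : Type} [Field K] [NumberField K] (u : (𝓞 K)ˣ) :
    latT K (latV u) = logEmbedding K (Additive.ofMul u) := rfl

/-- the real basis of the logarithmic space -/
def latB (K : Type) [Field K] [NumberField K] :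
    Module.Basis (Fin (rank K)) ℝ (dirichletUnitTheorem.logSpace K) :=
  basisOfIsMaxRank (isMaxRank_fundSystem K)

theorem latB_apply {K : Type} [Field K] [NumberField K] (i : Fin (rank K)) :
    latB K i = latT K (latV (fundSystem K i)) := by
  rw [latT_latV]
  exact basisOfIsMaxRank_apply (isMaxRank_fundSystem K) i

theorem lat_indep (K : Type) [Field K] [NumberField K] :
    LinearIndependent ℝ (fun i => latV (fundSystem K i)) := by
  apply LinearIndependent.of_comp (latT K)
  have h := (latB K).linearIndependent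
  have h2 : (⇑(latB K)) = (⇑(latT K) ∘ fun i => latV (fundSystem K i)) := by
    funext i
    exact latB_apply i
  rw [← h2]
  exact h

theorem lat_sum {K : Type} [Field K] [NumberField K] (u : (𝓞 K)ˣ) :
    ∑ w : InfinitePlace K, (w.mult : ℝ) * latV u w = 0 := by
  have h := sum_mult_mul_log u
  exact h

theorem lat_ext {K : Type} [Field K] [NumberField K] (s t : InfinitePlace K → ℝ)
    (hs : ∑ w, (w.mult : ℝ) * s w = 0) (ht : ∑ w, (w.mult : ℝ) * t w = 0)
    (h : latT K s = latT K t) : s = t := by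
  classical
  have h1 : ∀ w : InfinitePlace K, w ≠ dirichletUnitTheorem.w₀ → s w = t w := by
    intro w hw
    have h2 := congrFun h ⟨w, hw⟩
    have h3 : (w.mult : ℝ) * s w = (w.mult : ℝ) * t w := h2
    exact mul_left_cancel₀ mult_coe_ne_zero h3
  funext w
  by_cases hw : w = dirichletUnitTheorem.w₀
  · subst hw
    rw [Fintype.sum_eq_add_sum_subtype_ne _ dirichletUnitTheorem.w₀] at hs ht
    have h4 : ∑ i : {i : InfinitePlace K // i ≠ dirichletUnitTheorem.w₀}, (i.val.mult : ℝ) * s i.val =
        ∑ i : {i : InfinitePlace K // i ≠ dirichletUnitTheorem.w₀}, (i.val.mult : ℝ) * t i.val :=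
      Finset.sum_congr rfl fun i _ => by rw [h1 i.val i.2]
    rw [h4] at hs
    have h5 : ((dirichletUnitTheorem.w₀ : InfinitePlace K).mult : ℝ) *
        s dirichletUnitTheorem.w₀ = ((dirichletUnitTheorem.w₀ : InfinitePlace K).mult : ℝ) *
        t dirichletUnitTheorem.w₀ := by linarith
    exact mul_left_cancel₀ mult_coe_ne_zero h5
  · exact h1 w hw

theorem lat_span {K : Type} [Field K] [NumberField K] (t : InfinitePlace K → ℝ)
    (ht : ∑ w, (w.mult : ℝ) * t w = 0) :
    ∃ x : Fin (rank K) → ℝ, t = ∑ j, x j • latV (fundSystem K j) := by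
  refine ⟨fun j => (latB K).repr (latT K t) j, ?_⟩
  apply lat_ext t _ ht
  · simp only [Finset.sum_apply, Pi.smul_apply, smul_eq_mul]
    simp only [Finset.mul_sum]
    rw [Finset.sum_comm]
    apply Finset.sum_eq_zero
    intro j _
    have h := lat_sum (fundSystem K j)
    have h2 : ∀ w : InfinitePlace K, (w.mult : ℝ) * ((latB K).repr (latT K t) j *
        latV (fundSystem K j) w) = (latB K).repr (latT K t) j * ((w.mult : ℝ) *
        latV (fundSystem K j) w) := fun w => by ring
    simp only [h2]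
    rw [← Finset.mul_sum, h, mul_zero]
  · rw [map_sum]
    simp only [map_smul, ← latB_apply]
    exact ((latB K).sum_repr (latT K t)).symm

theorem lat_card {K : Type} [Field K] [NumberField K] (h3 : Module.finrank ℚ K = 3) :
    Fintype.card (InfinitePlace K) ≤ 3 := by
  have h1 := card_add_two_mul_card_eq_rank K
  have h2 := card_eq_nrRealPlaces_add_nrComplexPlaces K
  omega

/-- the height of a unit -/
theorem lat_height {K : Type} [Field K] [NumberField K] (h3 : Module.finrank ℚ K = 3)
    (u : (𝓞 K)ˣ) (M : ℝ) (hM : 0 ≤ M) (h : ∀ w, |latV u w| ≤ M) :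
    Height.logHeight₁ ((u : 𝓞 K) : K) ≤ 3 * M := by
  rw [NumberField.logHeight₁_eq]
  have h1 : ∑ᶠ v : FinitePlace K, Real.posLog (v ((u : 𝓞 K) : K)) = 0 := by
    apply finsum_eq_zero_of_forall_eq_zero
    intro v
    rw [Real.posLog_eq_zero_iff, abs_of_nonneg (apply_nonneg _ _)]
    rw [← FinitePlace.norm_embedding_eq]
    exact FinitePlace.norm_le_one K v.maximalIdeal _
  rw [h1, add_zero]
  have h2 : ∀ w : InfinitePlace K, (w.mult : ℝ) * Real.posLog (w ((u : 𝓞 K) : K)) ≤
      (w.mult : ℝ) * M := by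
    intro w
    apply mul_le_mul_of_nonneg_left _ (Nat.cast_nonneg _)
    rw [Real.posLog]
    exact max_le hM (le_trans (le_abs_self _) (h w))
  refine le_trans (Finset.sum_le_sum fun w _ => h2 w) ?_
  rw [← Finset.sum_mul, ← Nat.cast_sum, sum_mult_eq, h3]
  norm_num

/-- a unit of finite order has trivial logarithmic vector -/
theorem lat_tor {K : Type} [Field K] [NumberField K] (u : (𝓞 K)ˣ)
    (h : TOR ((u : 𝓞 K) : K)) : latV u = 0 := by
  obtain ⟨m, hm, h⟩ := h
  funext w
  simp only [latV, Pi.zero_apply]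
  have h1 : (w ((u : 𝓞 K) : K)) ^ m = 1 := by
    rw [← map_pow, h, map_one]
  have h2 : w ((u : 𝓞 K) : K) = 1 :=
    (pow_eq_one_iff_of_nonneg (apply_nonneg _ _) hm.ne').mp h1
  rw [h2, Real.log_one]

/-- rows of an invertible transformation are not zero -/
theorem lat_row {W : Type} [Fintype W] {r : ℕ} (v u : Fin r → W → ℝ) (hv : LinearIndependent ℝ v)
    (M M' : Fin r → Fin r → ℤ) (h1 : ∀ i, u i = ∑ j, (M i j : ℝ) • v j)
    (h2 : ∀ i, v i = ∑ j, (M' i j : ℝ) • u j) (i : Fin r) : u i ≠ 0 := by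
  intro h0
  have hM : ∀ j, (M i j : ℝ) = 0 := by
    rw [h1] at h0
    exact (Fintype.linearIndependent_iff.mp hv) (fun j => (M i j : ℝ)) h0
  have hMM : (Matrix.of fun a b => (M' a b : ℝ)) * (Matrix.of fun a b => (M a b : ℝ)) = 1 := by
    ext a b
    rw [Matrix.mul_apply]
    simp only [Matrix.of_apply]
    have e1 : ∑ c, ((∑ j, (M' a j : ℝ) * (M j c : ℝ)) - (1 : Matrix (Fin r) (Fin r) ℝ) a c) • v c
        = 0 := by
      simp only [sub_smul, Finset.sum_sub_distrib]
      have e2 : ∑ c, (1 : Matrix (Fin r) (Fin r) ℝ) a c • v c = v a := by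
        rw [Finset.sum_eq_single a]
        · rw [Matrix.one_apply_eq, one_smul]
        · intro b _ hb
          rw [Matrix.one_apply_ne (Ne.symm hb), zero_smul]
        · intro h
          exact absurd (Finset.mem_univ a) h
      rw [e2, sub_eq_zero]
      conv_rhs => rw [h2 a]
      simp only [Finset.sum_smul, h1, Finset.smul_sum, smul_smul]
      rw [Finset.sum_comm]
    have e3 := (Fintype.linearIndependent_iff.mp hv)
      (fun c => (∑ j, (M' a j : ℝ) * (M j c : ℝ)) - (1 : Matrix (Fin r) (Fin r) ℝ) a c) e1 b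
    exact sub_eq_zero.mp e3
  have hMM2 := mul_eq_one_comm.mp hMM
  have h3 := congrFun (congrFun hMM2 i) i
  rw [Matrix.mul_apply, Matrix.one_apply_eq] at h3
  simp only [Matrix.of_apply, hM, zero_mul, Finset.sum_const_zero] at h3
  exact zero_ne_one h3

theorem st_LAT (hRB : ST_RB) (hC0 : ST_C0) : ST_LAT := by
  obtain ⟨c, hc0, hc1, hC⟩ := hC0 3
  refine ⟨c / 3, by positivity, by linarith, ?_⟩
  intro K _ _ h3
  have hcard := lat_card h3
  have hr : rank K ≤ 2 := by
    rw [rank]
    omega
  obtain ⟨u, M, M', hM, hM', hRB'⟩ := hRB (InfinitePlace K) (rank K)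
    (fun i => latV (fundSystem K i)) hr (lat_indep K)
  have hrow := lat_row _ u (lat_indep K) M M' hM hM'
  have hu : ∀ i, latV (∏ j, fundSystem K j ^ M i j) = u i := by
    intro i
    rw [latV_prod, hM i]
  have hcomb : ∀ (x : Fin (rank K) → ℝ) (y : Fin (rank K) → ℝ),
      (∀ i, y i = ∑ j, x j * (M' j i : ℝ)) →
      ∑ j, x j • latV (fundSystem K j) = ∑ i, y i • u i := by
    intro x y hy
    simp only [hy, Finset.sum_smul]
    rw [Finset.sum_comm]
    refine Finset.sum_congr rfl fun j _ => ?_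
    conv_lhs => rw [hM' j]
    rw [Finset.smul_sum]
    refine Finset.sum_congr rfl fun i _ => ?_
    rw [smul_smul]
  refine ⟨rank K, fun i => ∏ j, fundSystem K j ^ M i j, fun i => ‖u i‖, hr, ?_, ?_, ?_, ?_, ?_⟩
  · intro i
    by_contra hlt
    rw [not_le] at hlt
    apply hrow i
    rw [← hu i]
    apply lat_tor
    apply hC K h3
    · exact (RingOfIntegers.coe_ne_zero_iff).mpr (Units.ne_zero _)
    · have h4 := lat_height h3 (∏ j, fundSystem K j ^ M i j) ‖u i‖ (norm_nonneg _) (by
        intro w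
        rw [hu i]
        exact norm_le_pi_norm (u i) w)
      linarith
  · intro i w
    have h4 : Real.log (w (((∏ j, fundSystem K j ^ M i j : (𝓞 K)ˣ) : 𝓞 K) : K)) = u i w := by
      rw [← hu i]
      rfl
    rw [h4]
    exact norm_le_pi_norm (u i) w
  · intro t ht
    obtain ⟨x, hx⟩ := lat_span t ht
    refine ⟨fun i => ∑ j, x j * (M' j i : ℝ), fun w => ?_⟩
    rw [hx, hcomb x _ (fun i => rfl), Finset.sum_apply]
    refine Finset.sum_congr rfl fun i _ => ?_
    rw [Pi.smul_apply, smul_eq_mul, ← hu i]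
    rfl
  · intro x B hB i
    have hB0 : 0 ≤ B := by
      have w : InfinitePlace K := Classical.arbitrary _
      exact le_trans (abs_nonneg _) (hB w)
    have h5 := hRB' x i
    have h6 : ∑ w : InfinitePlace K, (∑ j, x j * u j w) ^ 2 ≤ 3 * B ^ 2 := by
      have h7 : ∀ w : InfinitePlace K, (∑ j, x j * u j w) ^ 2 ≤ B ^ 2 := by
        intro w
        rw [← sq_abs]
        apply pow_le_pow_left₀ (abs_nonneg _)
        have h8 := hB w
        have h9 : ∑ j, x j * Real.log (w (((∏ l, fundSystem K l ^ M j l : (𝓞 K)ˣ) : 𝓞 K) : K)) =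
            ∑ j, x j * u j w := by
          refine Finset.sum_congr rfl fun j _ => ?_
          rw [← hu j]
          rfl
        rw [← h9]
        exact h8
      refine le_trans (Finset.sum_le_sum fun w _ => h7 w) ?_
      rw [Finset.sum_const, nsmul_eq_mul, Finset.card_univ]
      apply mul_le_mul_of_nonneg_right _ (sq_nonneg _)
      exact_mod_cast hcard
    have h10 : ‖u i‖ ^ 2 ≤ ∑ w, (u i w) ^ 2 := by
      obtain ⟨w, hw⟩ : ∃ w, ‖u i‖ = ‖u i w‖ := by
        obtain ⟨w, -, hw⟩ := Finset.exists_mem_eq_sup' (Finset.univ_nonempty (α := InfinitePlace K))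
          (fun w => ‖u i w‖)
        refine ⟨w, le_antisymm ?_ (norm_le_pi_norm (u i) w)⟩
        rw [pi_norm_le_iff_of_nonneg (norm_nonneg _)]
        intro w'
        rw [← hw]
        exact Finset.le_sup' (fun w => ‖u i w‖) (Finset.mem_univ w')
      rw [hw, Real.norm_eq_abs, sq_abs]
      exact Finset.single_le_sum (f := fun w => (u i w) ^ 2) (fun w _ => sq_nonneg _)
        (Finset.mem_univ w)
    have h11 : (|x i| * ‖u i‖) ^ 2 ≤ (2 * B) ^ 2 := by
      have h12 : 3 / 4 * (x i) ^ 2 * ‖u i‖ ^ 2 ≤ 3 * B ^ 2 := by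
        refine le_trans ?_ (le_trans h5 h6)
        exact mul_le_mul_of_nonneg_left h10 (by positivity)
      rw [mul_pow, sq_abs]
      nlinarith
    have h13 : |x i| * ‖u i‖ ≤ 2 * B := by
      exact le_of_sq_le_sq h11 (by positivity)
    calc c / 3 * |x i| * ‖u i‖ = c / 3 * (|x i| * ‖u i‖) := by ring
      _ ≤ c / 3 * (2 * B) := mul_le_mul_of_nonneg_left h13 (by positivity)
      _ ≤ B := by nlinarith
  · intro z
    obtain ⟨k, hk⟩ := latV_gen z
    refine ⟨fun i => ∑ j, k j * M' j i, fun w => ?_⟩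
    have h4 : Real.log (w ((z : 𝓞 K) : K)) = latV z w := rfl
    rw [h4, hk, hcomb (fun j => (k j : ℝ)) (fun i => ((∑ j, k j * M' j i : ℤ) : ℝ))
      (fun i => by push_cast; rfl), Finset.sum_apply]
    refine Finset.sum_congr rfl fun i _ => ?_
    rw [Pi.smul_apply, smul_eq_mul, ← hu i]
    rfl

end

end Pool.Agent.Helper55.HB
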